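import Pool.Agent.TH407.GS.Fin2

/-!
# The weights of the weighted `g_λ^*` inequality

Let `1 < λ ≤ 2` and `2/λ < p < 2`. A nonnegative locally integrable `U` on the line satisfies
`∫ (g_λ^* f)^p U ≤ C ∫ |f|^p U` for all `f` with finite right side if and only if
`U ∈ A_p` and `U ∈ B_{λp/2}`. This is proved for real and for complex valued `f`.

The definitions (Poisson integral, `g_λ^*`, the inequality, the conditions `A_p` and `B_r`) are in
`Pool/Agent/TH407/GS/Pub.lean`.

Sketch of the proof. Sufficiency: (1) `B_r` improves itself to doubling of some order `q < r`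
(`Pool.Agent.TH318.Br`); (2) the area function satisfies the weighted `L^p` inequality for `A_p`
weights: for `p = 2` by an explicit Bellman function of Poisson integrals, for `p < 2` by Rubio de
Francia's extrapolation and Muckenhoupt's theorem (`Pool.Agent.TH280.MZ`); (3) the change of aperture
from `1` to `2^k` costs the factor `2^{kq}` in the integral of the `p`-th power, for a weight that is
doubling of order `q`; (4) `g_λ^*` is at most the sum over `k` of `2^{-kλ/2}` times the area function
of aperture `2^k`, and `q < λp/2`. Necessity: test functions.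
-/

set_option autoImplicit false
open MeasureTheory
open Pool.Agent.TH407.GS

namespace Pool.Agent.Results.MP_842e08_an.GStarWeights

/-- For `1 < λ ≤ 2` and `2/λ < p < 2` the weights of the `g_λ^*` inequality are exactly those in
`A_p ∩ B_{λp/2}`. -/
theorem result (lam p : ℝ) (h1 : 1 < lam) (h2 : lam ≤ 2) (h3 : 2 / lam < p) (h4 : p < 2)
    (U : ℝ → ℝ) (hU : IsWeight U) :
    (GStarIneq ℝ lam p U ↔ CondA p U ∧ CondB (lam * p / 2) U) ∧
    (GStarIneq ℂ lam p U ↔ CondA p U ∧ CondB (lam * p / 2) U) :=
  main h1 h2 h3 h4 hU

end Pool.Agent.Results.MP_842e08_an.GStarWeights
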