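import Mathlib
import Pool.Agent.TH318.Br

set_option autoImplicit false

open MeasureTheory Set
open scoped ENNReal

namespace Pool.Agent.Results.MP_842e08_an.SelfImproving

/-- A weight on the line: a nonnegative locally integrable function. -/
def IsWeight (U : ℝ → ℝ) : Prop := (∀ x, 0 ≤ U x) ∧ LocallyIntegrable U

/-- The condition `B_r`: for every interval `I` with centre `c` and length `L`,
`∫ L ^ (r - 1) U(x) / (L ^ r + |x - c| ^ r) dx ≤ (C / L) ∫_I U`. -/
def CondB (r : ℝ) (U : ℝ → ℝ) : Prop :=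
  ∃ C : ℝ, ∀ c L : ℝ, 0 < L →
    ∫⁻ x, ENNReal.ofReal (L ^ (r - 1) * U x / (L ^ r + |x - c| ^ r)) ≤
      ENNReal.ofReal (C / L) * ∫⁻ x in Ioo (c - L / 2) (c + L / 2), ENNReal.ofReal (U x)

/-- Doubling of order `q`: dilating an interval by the factor `t ≥ 1` multiplies its weight by at
most `C t ^ q`. -/
def Doubling (q : ℝ) (U : ℝ → ℝ) : Prop :=
  ∃ C : ℝ, ∀ c L t : ℝ, 0 < L → 1 ≤ t →
    ∫⁻ x in Ioo (c - t * L / 2) (c + t * L / 2), ENNReal.ofReal (U x) ≤
      ENNReal.ofReal (C * t ^ q) * ∫⁻ x in Ioo (c - L / 2) (c + L / 2), ENNReal.ofReal (U x)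

open Pool.Agent.TH318.Br

/-- the measure of a weight -/
noncomputable def ms (U : ℝ → ℝ) : Measure ℝ := volume.withDensity fun x => ENNReal.ofReal (U x)

lemma ms_iv {U : ℝ → ℝ} (c L : ℝ) :
    ms U (iv c L) = ∫⁻ x in Ioo (c - L / 2) (c + L / 2), ENNReal.ofReal (U x) := by
  unfold ms iv
  rw [withDensity_apply _ measurableSet_Ioo]

lemma ms_lf {U : ℝ → ℝ} (hU : IsWeight U) : LF (ms U) := by
  intro c L
  rw [ms_iv]
  have h1 : IntegrableOn U (Icc (c - L / 2) (c + L / 2)) :=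
    hU.2.integrableOn_isCompact isCompact_Icc
  have h2 : IntegrableOn U (Ioo (c - L / 2) (c + L / 2)) := h1.mono_set Ioo_subset_Icc_self
  exact h2.lintegral_lt_top

lemma lint_eq {U : ℝ → ℝ} (hU : IsWeight U) {r c L : ℝ} (hL : 0 < L) :
    ∫⁻ x, ENNReal.ofReal (L ^ (r - 1) * U x / (L ^ r + |x - c| ^ r)) =
      ENNReal.ofReal (1 / L) * ∫⁻ x, ENNReal.ofReal (ker r c L x) ∂(ms U) := by
  have hUm : AEMeasurable (fun x => ENNReal.ofReal (U x)) :=
    hU.2.aestronglyMeasurable.aemeasurable.ennreal_ofReal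
  unfold ms
  rw [lintegral_withDensity_eq_lintegral_mul₀ hUm
    (measurable_ker r c L).ennreal_ofReal.aemeasurable]
  rw [← lintegral_const_mul']
  · apply lintegral_congr
    intro x
    simp only [Pi.mul_apply]
    rw [← ENNReal.ofReal_mul (hU.1 x), ← ENNReal.ofReal_mul (by positivity)]
    congr 1
    unfold ker
    rw [Real.rpow_sub hL, Real.rpow_one]
    field_simp
  · exact ENNReal.ofReal_ne_top

lemma condB_iff {U : ℝ → ℝ} (hU : IsWeight U) {r : ℝ} :
    CondB r U ↔ ∃ C : ℝ, 1 ≤ C ∧ Bm (ms U) r (ENNReal.ofReal C) := by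
  constructor
  · rintro ⟨C, hC⟩
    refine ⟨max C 1, le_max_right _ _, ?_⟩
    intro c L hL
    have h := hC c L hL
    rw [lint_eq hU hL, ← ms_iv] at h
    have hLL : ENNReal.ofReal L * ENNReal.ofReal (1 / L) = 1 := by
      rw [← ENNReal.ofReal_mul hL.le, mul_one_div_cancel hL.ne', ENNReal.ofReal_one]
    calc ∫⁻ x, ENNReal.ofReal (ker r c L x) ∂(ms U)
        = ENNReal.ofReal L * (ENNReal.ofReal (1 / L) *
            ∫⁻ x, ENNReal.ofReal (ker r c L x) ∂(ms U)) := by
          rw [← mul_assoc, hLL, one_mul]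
      _ ≤ ENNReal.ofReal L * (ENNReal.ofReal (C / L) * ms U (iv c L)) := by gcongr
      _ = ENNReal.ofReal C * ms U (iv c L) := by
          rw [← mul_assoc, ← ENNReal.ofReal_mul hL.le, mul_div_cancel₀ _ hL.ne']
      _ ≤ ENNReal.ofReal (max C 1) * ms U (iv c L) := by
          gcongr
          exact le_max_left _ _
  · rintro ⟨C, hC1, hC⟩
    refine ⟨C, fun c L hL => ?_⟩
    rw [lint_eq hU hL, ← ms_iv]
    calc ENNReal.ofReal (1 / L) * ∫⁻ x, ENNReal.ofReal (ker r c L x) ∂(ms U)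
        ≤ ENNReal.ofReal (1 / L) * (ENNReal.ofReal C * ms U (iv c L)) := by
          gcongr
          exact hC c L hL
      _ = ENNReal.ofReal (C / L) * ms U (iv c L) := by
          rw [← mul_assoc, ← ENNReal.ofReal_mul (by positivity)]
          congr 2
          ring


/-- `B_r` for a weight on the line improves itself. For every weight `U` and every `r > 1` the
following are equivalent: `U ∈ B_r`; `U ∈ B_q` for some `1 < q < r`; `U` is doubling of some
order `0 < q < r`. -/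
theorem result (U : ℝ → ℝ) (hU : IsWeight U) (r : ℝ) (hr : 1 < r) :
    List.TFAE [CondB r U, ∃ q, 1 < q ∧ q < r ∧ CondB q U, ∃ q, 0 < q ∧ q < r ∧ Doubling q U] := by
  have hlf := ms_lf hU
  have d2b : ∀ q s : ℝ, q < s → 0 < s → Doubling q U → CondB s U := by
    rintro q s hqs hs ⟨C, hC⟩
    rw [condB_iff hU]
    have hC' : ∀ c L : ℝ, 0 < L → ∀ k : ℕ, ms U (iv c (2 ^ k * L)) ≤
        ENNReal.ofReal (max C 1 * (2 ^ q) ^ k) * ms U (iv c L) := by
      intro c L hL k
      have h := hC c L (2 ^ k) hL (one_le_pow₀ (by norm_num))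
      rw [ms_iv, ms_iv]
      refine h.trans ?_
      gcongr ENNReal.ofReal ?_ * _
      have e : ((2 : ℝ) ^ k) ^ q = (2 ^ q) ^ k := by
        rw [← Real.rpow_natCast 2 k, ← Real.rpow_mul (by norm_num), mul_comm (k : ℝ) q,
          Real.rpow_mul (by norm_num), Real.rpow_natCast]
      rw [e]
      gcongr
      exact le_max_left _ _
    have hb := bm_of_doubling (μ := ms U) hs hqs (le_trans zero_le_one (le_max_right C 1)) hC'
    refine ⟨max (4 ^ s * max C 1 * (1 - (2 ^ s)⁻¹ * 2 ^ q)⁻¹) 1, le_max_right _ _, ?_⟩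
    intro c L hL
    refine (hb c L hL).trans ?_
    gcongr
    exact le_max_left _ _
  have b2d : ∀ s : ℝ, 1 < s → CondB s U → ∃ q, 0 < q ∧ q < s ∧ Doubling q U := by
    intro s hs h
    rw [condB_iff hU] at h
    obtain ⟨C, hC1, hC⟩ := h
    obtain ⟨q, h0, h1, C', -, h2⟩ := doubling_of_bm hs hC1 hlf hC
    refine ⟨q, h0, h1, C', fun c L t hL ht => ?_⟩
    have := h2 c L t hL ht
    rwa [ms_iv, ms_iv] at this
  tfae_have 1 → 3 := b2d r hr
  tfae_have 3 → 2 := by
    rintro ⟨q, hq0, hqr, hd⟩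
    refine ⟨(max q 1 + r) / 2, ?_, ?_, ?_⟩
    · have := le_max_right q 1
      linarith
    · have : max q 1 < r := max_lt hqr hr
      linarith
    · apply d2b q _ _ _ hd
      · have := le_max_left q 1
        linarith
      · have := le_max_right q 1
        linarith
  tfae_have 2 → 1 := by
    rintro ⟨q, hq1, hqr, hb⟩
    obtain ⟨q', -, h2, h3⟩ := b2d q hq1 hb
    exact d2b q' r (h2.trans hqr) (by linarith) h3
  tfae_finish

end Pool.Agent.Results.MP_842e08_an.SelfImproving
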